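import Pool.Agent.H31.ST.Basic

/-! # MP_0b97f5_mp, modules PRE and CPT (helper47) -/

set_option autoImplicit false

open Set Filter Topology Matrix

noncomputable section

namespace H47.ST

open H31.ST

theorem step_shift {a : ℕ → ℕ} {s t : St} {σ : Sym} (h : Step (shift2 a) s σ t) :
    Step a s.shift σ t.shift := by
  cases h with
  | pp k i h1 h2 => exact Step.pp (k + 2) i h1 h2
  | pm k i h1 h2 => exact Step.pm (k + 2) i h1 h2
  | mm k j h1 h2 => exact Step.mm (k + 2) j h1 h2
  | mp k i h1 h2 => exact Step.mp (k + 2) i h1 h2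
  | mn k i h1 h2 => exact Step.mn (k + 2) i h1 h2

theorem adm_minus {a : ℕ → ℕ} (j : ℕ) (hj : j + 1 ≤ a 0) :
    Adm a (St.minus 0 1) (List.replicate j ⟨false, 2, 1⟩) (St.minus 0 (j + 1)) := by
  induction j with
  | zero => exact Adm.nil _
  | succ j ih =>
    rw [List.replicate_succ']
    exact Adm.snoc (ih (by omega)) (Step.mm 0 (j + 1) (by omega) (by omega))

theorem pre_adm {a : ℕ → ℕ} (ha : ∀ k, 1 ≤ a k) (b : Bool) :
    Adm a (rootSt true) (pre a b) (rootSt b).shift := by
  have h0 := ha 0
  have h1 := ha 1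
  have h := adm_minus (a := a) (a 0 - 1) (by omega)
  rw [Nat.sub_add_cancel h0] at h
  refine Adm.snoc h ?_
  cases b with
  | false => exact Step.mp 0 1 le_rfl h1
  | true => exact Step.mn 0 1 le_rfl (by omega)

theorem pre_thm : T_PRE := by
  intro a ha b
  refine ⟨pre_adm ha b, ?_⟩
  intro v s h
  induction h with
  | nil =>
    rw [List.append_nil]
    exact pre_adm ha b
  | snoc h h' ih =>
    rw [← List.append_assoc]
    exact Adm.snoc ih (step_shift h')

theorem xt_zero (lam : ℝ) (a : ℕ → ℕ) (E : ℝ) : xt lam a 0 E = 2 := by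
  simp only [xt, Mm, Matrix.trace_fin_two_of]
  norm_num

theorem qd_pos {a : ℕ → ℕ} (ha : ∀ k, 1 ≤ a k) : ∀ n, 1 ≤ n → 1 ≤ qd a n
  | 0, h => absurd h (by norm_num)
  | 1, _ => le_rfl
  | (n + 2), _ => by
    have h1 := qd_pos ha (n + 1) (by omega)
    have h2 := ha n
    simp only [qd]
    nlinarith

theorem cpt (hE : T_ESC) (hP : T_POLY) (hZ : T_ZEROS) : T_CPT := by
  intro lam hlam a ha
  have hcont : ∀ n, Continuous (xt lam a n) := by
    intro n
    rcases Nat.eq_zero_or_pos n with rfl | hn
    · have : xt lam a 0 = fun _ => 2 := funext fun E => xt_zero lam a E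
      rw [this]; exact continuous_const
    · obtain ⟨p, -, -, hp⟩ := hP lam a ha n hn
      have : xt lam a n = fun E => p.eval E := funext fun E => (hp E).symm
      rw [this]; exact p.continuous
  have hclosed : ∀ n, IsClosed {E | |xt lam a n E| ≤ 2} := fun n =>
    isClosed_le (hcont n).abs continuous_const
  have hbdd : ∀ n, 1 ≤ n → Bornology.IsBounded {E | |xt lam a n E| ≤ 2} := by
    intro n hn
    obtain ⟨p, -, hdeg, hp⟩ := hP lam a ha n hn
    have hpos : 0 < p.degree := by
      rw [← Polynomial.natDegree_pos_iff_degree_pos, hdeg]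
      exact qd_pos ha n hn
    have h1 : Tendsto (fun E : ℝ => ‖p.eval E‖) (Bornology.cobounded ℝ) atTop :=
      p.tendsto_norm_atTop hpos (tendsto_norm_cobounded_atTop)
    have h2 : ∀ᶠ E in Bornology.cobounded ℝ, 2 < ‖p.eval E‖ := h1.eventually (eventually_gt_atTop 2)
    rw [Bornology.isBounded_def]
    filter_upwards [h2] with E hE'
    simp only [mem_compl_iff, mem_ofPred_eq, not_le]
    rw [← hp E]; exact hE'
  let K : ℕ → Set ℝ := fun n => {E | |xt lam a (n + 1) E| ≤ 2} ∪ {E | |xt lam a (n + 2) E| ≤ 2}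
  have hKcl : ∀ n, IsClosed (K n) := fun n => (hclosed _).union (hclosed _)
  have hKb : ∀ n, Bornology.IsBounded (K n) := fun n =>
    (hbdd _ (by omega)).union (hbdd _ (by omega))
  have hKc : ∀ n, IsCompact (K n) := fun n => Metric.isCompact_of_isClosed_isBounded (hKcl n) (hKb n)
  have hKne : ∀ n, (K n).Nonempty := by
    intro n
    obtain ⟨r, -, hr⟩ := hZ lam hlam a ha (n + 1) (by omega)
    refine ⟨r ⟨0, qd_pos ha _ (by omega)⟩, Or.inl ?_⟩
    simp only [mem_ofPred_eq]
    rw [hr]; norm_num
  have hKmono : ∀ n, K (n + 1) ⊆ K n := by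
    intro n E hE1
    by_contra hnot
    simp only [K, mem_union, mem_ofPred_eq, not_or, not_le] at hnot
    have h := hE lam hlam a ha (n + 1) E hnot.1 hnot.2
    rcases hE1 with h1 | h1
    · have := h (n + 1 + 1) (by omega)
      simp only [mem_ofPred_eq] at h1
      linarith
    · have := h (n + 1 + 2) (by omega)
      simp only [mem_ofPred_eq] at h1
      linarith
  have heq : SpecSet lam a = ⋂ n, K n := by
    ext E
    simp only [SpecSet, mem_ofPred_eq, mem_iInter]
    constructor
    · intro h n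
      exact h (n + 1)
    · intro h n
      rcases n with _ | n
      · left; rw [xt_zero]; norm_num
      · exact h n
  rw [heq]
  refine ⟨?_, ?_⟩
  · exact (hKc 0).of_isClosed_subset (isClosed_iInter hKcl) (iInter_subset _ 0)
  · exact IsCompact.nonempty_iInter_of_sequence_nonempty_isCompact_isClosed K hKmono hKne (hKc 0)
      hKcl

end H47.ST
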