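import Mathlib

/-!
Steingrimsson's conjecture on stack sort versus reversed stack sort (MP_78620a_co).
Definitions of the statement and of the proof.
-/

namespace Pool.Agent.H47.ST

open Finset

/-! ### The statement -/

/-- largest letter of a word (0 for the empty word) -/
def mx (w : List ℕ) : ℕ := w.foldr max 0

theorem length_takeWhile_lt {w : List ℕ} {m : ℕ} (h : m ∈ w) :
    (w.takeWhile (fun x => decide (x ≠ m))).length < w.length := by
  induction w with
  | nil => simp at h
  | cons a w ih =>
    by_cases ha : a = m
    · subst ha; simp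
    · have : m ∈ w := by
        rcases List.mem_cons.1 h with h | h
        · exact absurd h.symm ha
        · exact h
      have := ih this
      simp [ha]
      simpa using this

theorem length_tail_dropWhile_lt (w : List ℕ) (m : ℕ) (h : w ≠ []) :
    ((w.dropWhile (fun x => decide (x ≠ m))).tail).length < w.length := by
  have h1 : (w.dropWhile (fun x => decide (x ≠ m))).length ≤ w.length :=
    (List.dropWhile_sublist _).length_le
  have h2 : 0 < w.length := List.length_pos_of_ne_nil h
  simp only [List.length_tail]
  omega

theorem mx_mem {w : List ℕ} (h : w ≠ []) : mx w ∈ w := by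
  induction w with
  | nil => exact absurd rfl h
  | cons a w ih =>
    by_cases hw : w = []
    · subst hw; simp [mx]
    · have := ih hw
      simp only [mx, List.foldr_cons] at this ⊢
      rcases le_total a (w.foldr max 0) with h1 | h1
      · rw [max_eq_right h1]; exact List.mem_cons_of_mem _ this
      · rw [max_eq_left h1]; exact List.mem_cons_self

/-- The stack sort operator: `S(L m R) = S(L) S(R) m`, where `m` is the largest letter,
`L` the letters before it and `R` the letters after it. -/
def S (w : List ℕ) : List ℕ :=
  if h : w = [] then [] else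
    S (w.takeWhile (fun x => decide (x ≠ mx w))) ++
      S ((w.dropWhile (fun x => decide (x ≠ mx w))).tail) ++ [mx w]
termination_by w.length
decreasing_by
  · exact length_takeWhile_lt (mx_mem h)
  · exact length_tail_dropWhile_lt w _ h

/-- The revstack sort operator. -/
def T (w : List ℕ) : List ℕ := S w.reverse

/-- The word `π_1 ... π_n` (letters `1, ..., n`) of a permutation. -/
def word {n : ℕ} (π : Equiv.Perm (Fin n)) : List ℕ := List.ofFn fun i => (π i : ℕ) + 1

/-- The number of permutations of `n` letters which the `t`-th iterate of `F` sorts. -/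
noncomputable def cnt (F : List ℕ → List ℕ) (n t : ℕ) : ℕ :=
  Nat.card {π : Equiv.Perm (Fin n) // F^[t] (word π) = word (1 : Equiv.Perm (Fin n))}

/-! ### Words on `0, ..., n-1`, insertion of a new smallest letter -/

/-- stack machine: input, stack (top first) -/
def run : List ℕ → List ℕ → List ℕ
  | [], st => st
  | a :: inp, st => st.takeWhile (fun x => decide (x < a)) ++
      run inp (a :: st.dropWhile (fun x => decide (x < a)))

/-- new smallest letter inserted at position `p` -/
def step (w : List ℕ) (p : ℕ) : List ℕ := (w.map Nat.succ).take p ++ 0 :: (w.map Nat.succ).drop p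

/-- number of letters which are not records; `h` = 1 + running maximum -/
def nr : ℕ → List ℕ → ℕ
  | _, [] => 0
  | h, a :: v => if h ≤ a then nr (a + 1) v else 1 + nr h v

/-- gap map of `T` -/
def gT (w : List ℕ) (p : ℕ) : ℕ := nr 0 (w.drop p)

/-- orbits of a sequence of maps -/
def orb (g : ℕ → ℕ → ℕ) : ℕ → ℕ → ℕ
  | 0, p => p
  | k + 1, p => g k (orb g k p)

/-- the gap maps of `w` at time `k` -/
def gw (w : List ℕ) (k p : ℕ) : ℕ := gT (T^[k] w) p

/-- two gaps `p ≤ q` have met at time `k` iff all ranks between them are `< k` -/
def Inv (n : ℕ) (g : ℕ → ℕ → ℕ) (r : ℕ → ℕ) : Prop :=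
  ∀ k p q, p ≤ q → q ≤ n → (orb g k p = orb g k q ↔ ∀ i, p ≤ i → i < q → r i < k)

/-- gap maps after the insertion at `p` -/
def insg (g : ℕ → ℕ → ℕ) (p : ℕ) (k q : ℕ) : ℕ :=
  if q < orb g k p then g k q + 1
  else if q = orb g k p then g k q else g k (q - 1)

open Classical in
/-- ranks after the insertion at `p` -/
noncomputable def insr (p : ℕ) (r : ℕ → ℕ) (i : ℕ) : ℕ :=
  if i < p then (if r i % 2 = 0 ∧ ∀ j, i < j → j < p → r j < r i then r i + 1 else r i)
  else if i = p then 0
  else (if r (i - 1) % 2 = 1 ∧ ∀ j, p ≤ j → j < i - 1 → r j < r (i - 1) then r (i - 1) + 1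
    else r (i - 1))

/-! ### Rank lists and blocks -/

/-- scan from left to right with height `h` (= 1 + largest rank seen): the visible elements
(rank at least `h`) of parity `e` are raised by one -/
def up (e : ℕ) : ℕ → List ℕ → List ℕ
  | _, [] => []
  | h, r :: B => if h ≤ r then (if r % 2 = e then r + 1 else r) :: up e (r + 1) B
      else r :: up e h B

/-- height after the scan -/
def top : ℕ → List ℕ → ℕ
  | h, [] => h
  | h, r :: B => top (max h (r + 1)) B

/-- insertion of a new element of rank 0 between `X` and `Y` (`e = 1` is the process of `T`) -/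
def ins (e : ℕ) (X Y : List ℕ) : List ℕ := (up (1 - e) 0 X.reverse).reverse ++ 0 :: up e 0 Y

/-- mirror image of a list of blocks -/
def mir (st : List (List ℕ)) : List (List ℕ) := (st.map List.reverse).reverse

/-- scan of a list of blocks from left to right -/
def upR (e : ℕ) : ℕ → List (List ℕ) → List (List ℕ)
  | _, [] => []
  | h, B :: Bs => up e h B :: upR e (top h B) Bs

/-- scan of a list of blocks from right to left -/
def upL (e h : ℕ) (st : List (List ℕ)) : List (List ℕ) := mir (upR e h (mir st))

/-- insertion in the block `X ++ Y` between `X` and `Y` of the state `Ls ++ (X ++ Y) :: Rs` -/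
def place (e : ℕ) (Ls : List (List ℕ)) (X Y : List ℕ) (Rs : List (List ℕ)) : List (List ℕ) :=
  upL (1 - e) (top 0 X) Ls ++ ins e X Y :: upR e (top 0 Y) Rs

/-- a placement: blocks to the left, left part and right part of the block, blocks to the right -/
abbrev Pl := List (List ℕ) × List ℕ × List ℕ × List (List ℕ)

/-- all placements in the blocks of the second list; the first list are the blocks before -/
def plc : List (List ℕ) → List (List ℕ) → List Pl
  | _, [] => []
  | Ls, B :: Rs => ((List.range (B.length + 1)).map fun p => (Ls, B.take p, B.drop p, Rs)) ++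
      plc (Ls ++ [B]) Rs

/-- the state after a placement -/
def plq (e : ℕ) (q : Pl) : List (List ℕ) := place e q.1 q.2.1 q.2.2.1 q.2.2.2

/-- all ranks are at most `R` -/
def okR (R : ℕ) (st : List (List ℕ)) : Prop := ∀ B ∈ st, ∀ r ∈ B, r ≤ R

/-- all blocks have at most `m0` elements -/
def okM (m0 : ℕ) (st : List (List ℕ)) : Prop := ∀ B ∈ st, B.length ≤ m0

open Classical in
/-- number of sequences of `n` insertions from the state `st` -/
noncomputable def NN (R m0 : ℕ) : ℕ → List (List ℕ) → ℕ
  | 0, _ => 1
  | n + 1, st => ((plc [] st).map fun q =>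
      if okR R (plq 1 q) ∧ okM m0 (plq 1 q) then NN R m0 n (plq 1 q) else 0).sum

/-! ### The potential -/

/-- smallest number `≥ n` of parity `e` -/
def cl (e n : ℕ) : ℕ := if n % 2 = e then n else n + 1

/-- effective label of an element of rank `r`; `hl` (`hr`) = 1 + largest rank in the block to the
left (right) of the element -/
def Lh (e hl r hr : ℕ) : ℕ := min (cl (1 - e) (max hl (r + 1) - 1)) (cl e (max hr (r + 1) - 1))

/-- walker: weak record from one of the two ends of the block -/
def walker (hl r hr : ℕ) : Prop := hl ≤ r + 1 ∨ hr ≤ r + 1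

/-- pending: strict record of parity `1 - e` from the right end or `e` from the left end -/
def pend (e hl r hr : ℕ) : Prop := (r % 2 = 1 - e ∧ hr ≤ r) ∨ (r % 2 = e ∧ hl ≤ r)

instance (hl r hr : ℕ) : Decidable (walker hl r hr) := by unfold walker; infer_instance
instance (e hl r hr : ℕ) : Decidable (pend e hl r hr) := by unfold pend; infer_instance

/-- weight of an element -/
noncomputable def wt (R : ℕ) (W U : ℝ) (e hl r hr : ℕ) : ℝ :=
  Real.exp (((R : ℝ) + 1 - (Lh e hl r hr : ℝ)) / R) *
    (if walker hl r hr then W else 1) * (if pend e hl r hr then U else 1)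

/-- weight of a list; `hl` = height of the elements to the left of it, `hr` = height of the
elements to the right of it -/
noncomputable def phC (R : ℕ) (W U : ℝ) (e : ℕ) : ℕ → List ℕ → ℕ → ℝ
  | _, [], _ => 1
  | hl, r :: B, hr => wt R W U e hl r (max (top 0 B) hr) * phC R W U e (max hl (r + 1)) B hr

/-- weight of a state without the factors `D` -/
noncomputable def PA (R : ℕ) (W U : ℝ) (e : ℕ) (st : List (List ℕ)) : ℝ :=
  (st.map fun B => phC R W U e 0 B 0).prod

/-- sum of the block heights -/
def tsum (st : List (List ℕ)) : ℕ := (st.map (top 0)).sum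

/-- largest block height -/
def tops (st : List (List ℕ)) : ℕ := (st.map (top 0)).foldr max 0

/-- the potential -/
noncomputable def PHI (R : ℕ) (W U D : ℝ) (e : ℕ) (st : List (List ℕ)) : ℝ :=
  PA R W U e st / D ^ (tsum st)

/-- levels of the pending elements (other than the block maximum) of parity `e` which are
visible from the left with height `h` -/
def vis (e : ℕ) : ℕ → List ℕ → Finset ℕ
  | _, [] => ∅
  | h, r :: B => if h ≤ r then (if r % 2 = e ∧ r + 1 < top 0 B then {r} else ∅) ∪ vis e (r + 1) B
      else vis e h B

/-- the same for a list of blocks -/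
def pops (e : ℕ) : ℕ → List (List ℕ) → Finset ℕ
  | _, [] => ∅
  | h, B :: Bs => vis e h B ∪ pops e (top h B) Bs

/-- size of the zone of the placement `(X, Y)` at level `c` -/
def zM (c : ℕ) (X Y : List ℕ) : ℕ :=
  (X.reverse.takeWhile (fun r => decide (r < c))).length +
    (Y.takeWhile (fun r => decide (r < c))).length + 1

/-- number of the walkers of rank `c` which are killed -/
def zK (c : ℕ) (X : List ℕ) : ℕ := (X.reverse.takeWhile (fun r => decide (r ≤ c))).count c

/-- home placement: `Rs` = the blocks between the block `X ++ Y` and the home mark -/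
def home (X Y : List ℕ) (Rs : List (List ℕ)) : Prop := top 0 Y < top 0 X ∧ tops Rs ≤ top 0 Y

instance (X Y : List ℕ) (Rs : List (List ℕ)) : Decidable (home X Y Rs) := by
  unfold home; infer_instance

/-! ### Words with values, rows -/

/-- insertion of a new smallest letter in a list of blocks of values -/
def vpl (q : Pl) : List (List ℕ) :=
  q.1.map (List.map Nat.succ) ++ (q.2.1.map Nat.succ ++ 0 :: q.2.2.1.map Nat.succ) ::
    q.2.2.2.map (List.map Nat.succ)

/-- all lists of blocks of values which can be reached with `k` insertions -/
def reach : ℕ → List (List ℕ) → Finset (List (List ℕ))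
  | 0, V => {V}
  | k + 1, V => ((plc [] V).toFinset.image vpl).biUnion (reach k)

/-- `A` dominates `B`: for all `v`, `A` has at least as many letters `≥ v` as `B` -/
def dom (A B : List ℕ) : Prop :=
  ∀ v, (B.filter fun x => decide (v ≤ x)).length ≤ (A.filter fun x => decide (v ≤ x)).length

/-- lattice word (in time order) -/
def lat (l : List ℕ) : Prop := ∀ u v, l = u ++ v → ∀ c, u.count (c + 1) ≤ u.count c

/-- insertion of a new smallest letter in the first row of length `≤ c`, at position `p` -/
def smv (V : List (List ℕ)) (c p : ℕ) : List (List ℕ) :=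
  let i := (V.filter fun B => decide (c < B.length)).length
  vpl (V.take i, (V.getD i []).take p, (V.getD i []).drop p, V.drop (i + 1))

/-- the lists of rows built from a word of columns; the word is REVERSED (last letter first) -/
def Rch (k : ℕ) : List ℕ → Finset (List (List ℕ))
  | [] => {List.replicate k []}
  | c :: l => (Rch k l).biUnion fun V => (range (max c 1)).image (smv V c)

/-- lists of rows obtained after the word `l` (reversed): `k` rows with the letters
`0, ..., |l| - 1`, count of letter `c` = number of rows longer than `c`, lengths weakly decreasing,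
the last letter of a row is its largest letter, every row dominates the later rows -/
def RInv (k : ℕ) (l : List ℕ) (V : List (List ℕ)) : Prop :=
  V.length = k ∧ V.flatten.Perm (List.range l.length) ∧
  (∀ c, (V.filter fun B => decide (c < B.length)).length = l.count c) ∧
  V.Pairwise (fun A B => B.length ≤ A.length) ∧
  (∀ B ∈ V, ∀ x ∈ B, ∀ y ∈ B.getLast?, x ≤ y) ∧ V.Pairwise dom

/-- constant -/
noncomputable def KK (R : ℕ) (W U : ℝ) : ℝ := W ^ 5 * U ^ 3 * Real.exp (((R : ℝ) + 1) / R)

/-- the growth constant for `T` -/
noncomputable def lam (R m0 : ℕ) (W U : ℝ) : ℝ :=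
  U ^ 2 * (W / (W - 1)) * (R / (2 * Real.exp 1)) * (R * (Real.exp 1 - 1)) +
    KK R W U * (m0 * (U / (U - 1)) + 3)

end Pool.Agent.H47.ST
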