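import Pool.Agent.H47.ST.Targets

namespace Pool.Agent.H47.ST

open Finset

/-- explicit form of the theorem -/
def T_EXP : Prop := ∃ t0 : ℕ, ∀ t ≥ t0, 3 ≤ t ∧
  (11 / 10 : ℝ) ^ (t ^ 3 * (t ^ 2 + t - 1)) * cnt T (t ^ 3 * (t ^ 2 + t - 1)) t
    < cnt S (t ^ 3 * (t ^ 2 + t - 1)) t

theorem pf_EXP (h1 : T_UP) (h2 : T_DN) (h3 : T_FIN) : T_EXP := by
  obtain ⟨R0, hR⟩ := h3
  refine ⟨max R0 3, fun t ht => ?_⟩
  have ht0 : R0 ≤ t := le_trans (le_max_left _ _) ht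
  have ht3 : 3 ≤ t := le_trans (le_max_right _ _) ht
  refine ⟨ht3, ?_⟩
  have hn : t ^ 3 * (t ^ 2 + t - 1) = t * (t ^ 2 * (t ^ 2 + t - 1)) := by ring
  rw [hn]
  set k := t ^ 2 * (t ^ 2 + t - 1) with hk
  set n := t * k with hnk
  set m0 := t * Nat.sqrt t with hm0
  set m := n / m0 + 1 with hm
  have hsq : 1 ≤ Nat.sqrt t := by
    rw [Nat.le_sqrt]; omega
  have hm0p : 1 ≤ m0 := Nat.one_le_iff_ne_zero.2 (by positivity)
  have hnm : n ≤ m * m0 := by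
    have := Nat.div_add_mod n m0
    have h4 := Nat.mod_lt n (show 0 < m0 by omega)
    rw [hm, add_mul, one_mul]
    nlinarith [mul_comm m0 (n / m0)]
  have hm1 : 1 ≤ m := Nat.le_add_left 1 _
  have hup := h1 t n m m0 100 (101 / 100) (by omega) hm0p hm1 hnm (by norm_num)
    (by norm_num)
  have hlow := h2 t (t ^ 2) (t ^ 2) (by omega)
  have hfin := hR t m0 k n m ht0 rfl rfl rfl rfl
  have hkeq : t ^ 2 * (t ^ 2 + t - 1) = k := rfl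
  rw [hkeq] at hlow
  have hlow' : ((t : ℝ) ^ (t ^ 2)) ^ (t ^ 2 * t) * ((t - 1).factorial : ℝ) ^ k ≤
      (cnt S n t : ℝ) * ((((t : ℝ) ^ 2 + 1) ^ t) ^ (t ^ 2 * t)) := by
    have : (((t ^ (t ^ 2)) ^ (t ^ 2 * t) * (t - 1).factorial ^ k : ℕ) : ℝ) ≤
      ((cnt S n t * ((t ^ 2 + 1) ^ t) ^ (t ^ 2 * t) : ℕ) : ℝ) := by exact_mod_cast hlow
    push_cast at this
    exact this
  set E : ℝ := (((t : ℝ) ^ 2 + 1) ^ t) ^ (t ^ 2 * t) with hE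
  have hEpos : 0 < E := by positivity
  have h5 : (11 / 10 : ℝ) ^ n * (cnt T n t : ℝ) * E < (cnt S n t : ℝ) * E := by
    calc (11 / 10 : ℝ) ^ n * (cnt T n t : ℝ) * E
        ≤ (11 / 10 : ℝ) ^ n * (lam t m0 100 (101 / 100) ^ n *
            ((m0 + 1) * m : ℝ) ^ ((t + 1) * m)) * E := by
          gcongr
      _ = lam t m0 100 (101 / 100) ^ n * ((m0 + 1) * m : ℝ) ^ ((t + 1) * m) *
            ((11 / 10 : ℝ) ^ n * E) := by ring
      _ < _ := hfin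
      _ ≤ _ := hlow'
  exact lt_of_mul_lt_mul_right h5 hEpos.le

end Pool.Agent.H47.ST
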