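import Pool.Agent.H11.STK.RC
import Pool.Agent.H13.STK.CAP
import Pool.Agent.H13.STK.RD
import Pool.Agent.H14.STK.ANT
import Pool.Agent.H14.STK.GEO
import Pool.Agent.H14.STK.MR
import Pool.Agent.H14.STK.STW
import Pool.Agent.H15.STK.YSR
import Pool.Agent.H16.STK.LOW
import Pool.Agent.H19.STK.CNT
import Pool.Agent.H19.STK.INS
import Pool.Agent.H19.STK.PLC
import Pool.Agent.H2.STK.ZS
import Pool.Agent.H26.STK.XSR
import Pool.Agent.H27.STK.LW
import Pool.Agent.H27.STK.RI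
import Pool.Agent.H35.STK.GR
import Pool.Agent.H35.STK.PN
import Pool.Agent.H35.STK.RUN
import Pool.Agent.H38.STK.RAI
import Pool.Agent.H39.STK.NNB
import Pool.Agent.H4.STK.GST
import Pool.Agent.H4.STK.O
import Pool.Agent.H47.STK.TST
import Pool.Agent.H49.STK.FLT
import Pool.Agent.H5.STK.SRT
import Pool.Agent.H50.STK.LI
import Pool.Agent.H50.STK.SA
import Pool.Agent.H51.STK.SC
import Pool.Agent.H52.STK.ITE
import Pool.Agent.H52.STK.SUC
import Pool.Agent.H54.STK.LN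
import Pool.Agent.H54.STK.WC
import Pool.Agent.H55.STK.FIN
import Pool.Agent.H56.STK.MIR
import Pool.Agent.H58.STK.RB
import Pool.Agent.H58.STK.TCK
import Pool.Agent.H58.STK.UNS
import Pool.Agent.H60.STK.APP
import Pool.Agent.H60.STK.LR
import Pool.Agent.H60.STK.RCH
import Pool.Agent.H60.STK.TOP
import Pool.Agent.H62.STK.SST
import Pool.Agent.H63.STK.PO
import Pool.Agent.H63.STK.PRM
import Pool.Agent.H64.STK.UP
import Pool.Agent.H72.STK.HM
import Pool.Agent.H72.STK.IP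
import Pool.Agent.H74.STK.INV
import Pool.Agent.H77.STK.PS
import Pool.Agent.H77.STK.YS
import Pool.Agent.H78.STK.END
import Pool.Agent.H80.STK.BLD
import Pool.Agent.H91.STK.GG
import Pool.Agent.H91.STK.MG
import Pool.Agent.H94.STK.GI
import Pool.Agent.H98.STK.DN
import Pool.Agent.H98.STK.PM
import Pool.Agent.H99.STK.POT
import Pool.Agent.H99.STK.WRD
import Pool.Agent.H47.ST.Exp

/-! Assembly of the rows of the board (MP_78620a_co). -/

namespace Pool.Agent.H47.ST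

theorem q_ANT : T_ANT := Pool.Agent.H14.STK.pf_ANT

theorem q_GST : T_GST := Pool.Agent.H4.STK.pf_GST

theorem q_PERM : T_PERM := Pool.Agent.H63.STK.pf_PRM

theorem q_RUN : T_RUN := Pool.Agent.H35.STK.pf_RUN

theorem q_TST : T_TST := Pool.Agent.H47.STK.pf_TST q_RUN

theorem q_ITE : T_ITE := Pool.Agent.H52.STK.pf_ITE q_PERM q_TST q_ANT

theorem q_UNS : T_UNS := Pool.Agent.H58.STK.pf_UNS q_ITE

theorem q_SUC : T_SUC := Pool.Agent.H52.STK.pf_SUC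

theorem q_PS : T_PS := Pool.Agent.H77.STK.pf_PS

theorem q_RB : T_RB := Pool.Agent.H58.STK.pf_RB q_ITE

theorem q_INS : T_INS := Pool.Agent.H19.STK.pf_INS

theorem q_TOP : T_TOP := Pool.Agent.H60.STK.pf_TOP

theorem q_YSR : T_YSR := Pool.Agent.H15.STK.pf_YSR q_TOP

theorem q_WRD : T_WRD := Pool.Agent.H99.STK.pf_WRD q_SUC

theorem q_INV : T_INV := Pool.Agent.H74.STK.pf_INV

theorem q_STW : T_STW := Pool.Agent.H14.STK.pf_STW q_ITE q_GST q_ANT q_INV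

theorem q_FLT : T_FLT := Pool.Agent.H49.STK.pf_FLT

theorem q_PLC : T_PLC := Pool.Agent.H19.STK.pf_PLC

theorem q_CNT : T_CNT := Pool.Agent.H19.STK.pf_CNT q_STW q_UNS q_RB q_INS q_FLT q_PLC q_ITE

theorem q_RCH : T_RCH := Pool.Agent.H60.STK.pf_RCH

theorem q_TCK : T_TCK := Pool.Agent.H58.STK.pf_TCK q_WRD q_CNT q_RCH

theorem q_LOW : T_LOW := Pool.Agent.H16.STK.pf_LOW

theorem q_RI : T_RI := Pool.Agent.H27.STK.pf_RI

theorem q_RC : T_RC := Pool.Agent.H11.STK.pf_RC q_RI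

theorem q_APP : T_APP := Pool.Agent.H60.STK.pf_APP

theorem q_MIR : T_MIR := Pool.Agent.H56.STK.pf_MIR q_APP q_TOP

theorem q_O : T_O := Pool.Agent.H4.STK.pf_O q_TOP

theorem q_SC : T_SC := Pool.Agent.H51.STK.pf_SC q_TOP q_MIR q_O

theorem q_YS : T_YS := Pool.Agent.H77.STK.pf_YS q_TOP

theorem q_MG : T_MG := Pool.Agent.H91.STK.pf_MG q_TOP q_APP q_MIR q_YS

theorem q_PO : T_PO := Pool.Agent.H63.STK.pf_PO q_TOP

theorem q_IP : T_IP := Pool.Agent.H72.STK.pf_IP q_TOP q_PO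

theorem q_GI : T_GI := Pool.Agent.H94.STK.pf_GI q_TOP q_SC q_MG q_IP

theorem q_PN : T_PN := Pool.Agent.H35.STK.pf_PN

theorem q_GEO : T_GEO := Pool.Agent.H14.STK.pf_GEO

theorem q_NNB : T_NNB := Pool.Agent.H39.STK.pf_NNB q_LOW q_PLC

theorem q_HM : T_HM := Pool.Agent.H72.STK.pf_HM q_TOP

theorem q_GG : T_GG := Pool.Agent.H91.STK.pf_GG q_TOP q_SC q_MG

theorem q_XSR : T_XSR := Pool.Agent.H26.STK.pf_XSR q_TOP

theorem q_MR : T_MR := Pool.Agent.H14.STK.pf_MR q_TOP q_APP q_MIR q_YSR q_XSR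

theorem q_GR : T_GR := Pool.Agent.H35.STK.pf_GR q_SC q_MR

theorem q_RAI : T_RAI := Pool.Agent.H38.STK.pf_RAI q_TOP

theorem q_CAP : T_CAP := Pool.Agent.H13.STK.pf_CAP q_TOP

theorem q_ZS : T_ZS := Pool.Agent.H2.STK.pf_ZS

theorem q_LR : T_LR := Pool.Agent.H60.STK.pf_LR q_TOP q_ZS

theorem q_LI : T_LI := Pool.Agent.H50.STK.pf_LI q_TOP q_PO

theorem q_LN : T_LN := Pool.Agent.H54.STK.pf_LN q_TOP

theorem q_SA : T_SA := Pool.Agent.H50.STK.pf_SA q_TOP q_PLC q_GG q_GR q_GI q_RAI q_CAP q_LR q_LI q_LN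

theorem q_PM : T_PM := Pool.Agent.H98.STK.pf_PM q_TOP q_MIR

theorem q_POT : T_POT := Pool.Agent.H99.STK.pf_POT q_HM q_SA q_PS q_PM q_GEO q_PN q_PO q_PLC

theorem q_UP : T_UP := Pool.Agent.H64.STK.pf_UP q_TCK q_NNB q_POT

theorem q_WC : T_WC := Pool.Agent.H54.STK.pf_WC

theorem q_LW : T_LW := Pool.Agent.H27.STK.pf_LW

theorem q_SST : T_SST := Pool.Agent.H62.STK.pf_SST q_RUN

theorem q_SRT : T_SRT := Pool.Agent.H5.STK.pf_SRT q_PERM q_SST

theorem q_RD : T_RD := Pool.Agent.H13.STK.pf_RD q_RI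

theorem q_BLD : T_BLD := Pool.Agent.H80.STK.pf_BLD q_WRD q_SRT q_RI q_RC q_RD q_PERM

theorem q_DN : T_DN := Pool.Agent.H98.STK.pf_DN q_WC q_LW q_BLD

theorem q_FIN : T_FIN := Pool.Agent.H55.STK.pf_FIN

theorem q_END : T_END := Pool.Agent.H78.STK.pf_END q_UP q_DN q_FIN

theorem pf_T_EXP : T_EXP := pf_EXP q_UP q_DN q_FIN

end Pool.Agent.H47.ST
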