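import Pool.Agent.H47.ST.Defs

namespace Pool.Agent.H47.ST

open Finset

/-! ### A. The operator T and the rank process -/

/-- the recursion is the stack machine -/
def T_RUN : Prop := ∀ w : List ℕ, w.Nodup → S w = run w []

/-- `S w` is a rearrangement of `w` -/
def T_PERM : Prop := ∀ w : List ℕ, (S w).Perm w

/-- `S` commutes with the shift of the letters -/
def T_SUC : Prop := ∀ w : List ℕ, S (w.map Nat.succ) = (S w).map Nat.succ

/-- insertion of a new smallest letter and `T` -/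
def T_TST : Prop := ∀ (w : List ℕ) (p : ℕ), w.Nodup → p ≤ w.length →
  T (step w p) = step (T w) (gT w p)

/-- the gap map of `step w p` -/
def T_GST : Prop := ∀ (w : List ℕ) (p q : ℕ), p ≤ w.length → q ≤ w.length + 1 →
  gT (step w p) q = if q < p then gT w q + 1 else if q = p then gT w q else gT w (q - 1)

/-- the gap map is antitone -/
def T_ANT : Prop := ∀ (w : List ℕ) (p q : ℕ), p ≤ q → gT w q ≤ gT w p ∧ gT w p ≤ w.length

/-- the abstract rank process -/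
def T_INV : Prop := ∀ (n p : ℕ) (g : ℕ → ℕ → ℕ) (r : ℕ → ℕ),
  (∀ k q, q ≤ n → g k q ≤ n) → (∀ k q q', q ≤ q' → q' ≤ n → g k q' ≤ g k q) → p ≤ n →
  Inv n g r → Inv (n + 1) (insg g p) (insr p r)

/-- iterates and insertion -/
def T_ITE : Prop := ∀ (n : ℕ) (w : List ℕ) (p k : ℕ), w.Perm (List.range n) → p ≤ n →
  T^[k] (step w p) = step (T^[k] w) (orb (gw w) k p) ∧ orb (gw w) k p ≤ n ∧
  (T^[k] w).Perm (List.range n)

/-- the rank process for words -/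
def T_STW : Prop := ∀ (n : ℕ) (w : List ℕ) (r : ℕ → ℕ) (p : ℕ), w.Perm (List.range n) → p ≤ n →
  Inv n (gw w) r → Inv (n + 1) (gw (step w p)) (insr p r)

/-- if a word is sorted by `T^R`, then also the word without its smallest letter -/
def T_UNS : Prop := ∀ (n : ℕ) (w : List ℕ) (p R : ℕ), w.Perm (List.range n) → p ≤ n →
  T^[R] (step w p) = List.range (n + 1) → T^[R] w = List.range n

/-- ranks of a word sorted by `T^R` are at most `R` -/
def T_RB : Prop := ∀ (n : ℕ) (w : List ℕ) (r : ℕ → ℕ) (R : ℕ), w.Perm (List.range n) →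
  T^[R] w = List.range n → Inv n (gw w) r → ∀ i, i < n → r i ≤ R

/-- the insertion rule on lists -/
def T_INS : Prop := ∀ (X Y : List ℕ) (i : ℕ), i ≤ (X ++ Y).length →
  (ins 1 X Y).getD i 0 = insr X.length (fun j => (X ++ Y).getD j 0) i

/-! ### C. Counting insertions -/

/-- blocks do not matter for the process -/
def T_FLT : Prop := ∀ (Ls : List (List ℕ)) (X Y : List ℕ) (Rs : List (List ℕ)),
  (place 1 Ls X Y Rs).flatten = ins 1 (Ls.flatten ++ X) (Y ++ Rs.flatten) ∧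
  (place 1 Ls X Y Rs).map List.length =
    Ls.map List.length ++ (X.length + Y.length + 1) :: Rs.map List.length

/-- all placements -/
def T_PLC : Prop := ∀ (st : List (List ℕ)) (q : Pl),
  q ∈ plc [] st ↔ st = q.1 ++ (q.2.1 ++ q.2.2.1) :: q.2.2.2

/-- the number of sorted words reachable from `V` is at most the number of rank histories -/
def T_CNT : Prop := ∀ (R m0 k n : ℕ) (V st : List (List ℕ)),
  V.map List.length = st.map List.length → V.flatten.Perm (List.range n) →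
  Inv n (gw V.flatten) (fun i => st.flatten.getD i 0) →
  Set.ncard {V' | V' ∈ reach k V ∧ T^[R] V'.flatten = List.range (n + k) ∧ okM m0 V'}
    ≤ NN R m0 k st

/-- every list of `m` blocks is reachable -/
def T_RCH : Prop := ∀ (n m : ℕ) (V : List (List ℕ)), V.length = m →
  V.flatten.Perm (List.range n) → V ∈ reach n (List.replicate m [])

/-- words and permutations -/
def T_WRD : Prop := ∀ (n t : ℕ),
  cnt S n t = Set.ncard {w : List ℕ | w.Perm (List.range n) ∧ S^[t] w = List.range n} ∧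
  cnt T n t = Set.ncard {w : List ℕ | w.Perm (List.range n) ∧ T^[t] w = List.range n}

/-- the number of permutations sorted by `T^R` is at most the number of histories -/
def T_TCK : Prop := ∀ (R n m m0 : ℕ), 1 ≤ m0 → n ≤ m * m0 →
  cnt T n R ≤ NN R m0 n (List.replicate m [])

/-- potential inequality for all states with `m` blocks -/
def POT (R m0 m : ℕ) (W U D l : ℝ) : Prop := ∀ st : List (List ℕ), st.length = m → okR R st →
  okM m0 st → (open Classical in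
  ((plc [] st).map fun q => if okR R (plq 1 q) ∧ okM m0 (plq 1 q)
    then PHI R W U D 1 (plq 1 q) else 0).sum) ≤ l * PHI R W U D 1 st

/-- weights are at least 1, lower bound of the potential -/
def T_LOW : Prop := ∀ (R m : ℕ) (W U D : ℝ) (st : List (List ℕ)), 1 ≤ R → 1 ≤ W → 1 ≤ U → 1 ≤ D →
  st.length = m → okR R st → 1 ≤ PHI R W U D 1 st * D ^ ((R + 1) * m)

/-- from the potential inequality to the number of histories -/
def T_NNB : Prop := ∀ (R m0 m n : ℕ) (W U D l : ℝ), 1 ≤ R → 1 ≤ W → 1 ≤ U → 1 ≤ D → 0 ≤ l →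
  POT R m0 m W U D l →
  (NN R m0 n (List.replicate m []) : ℝ) ≤ l ^ n * D ^ ((R + 1) * m)

/-! ### B. The potential -/

def T_TOP : Prop := (∀ h B, top h B = max h (top 0 B)) ∧ (∀ X Y, top 0 (X ++ Y) =
  max (top 0 X) (top 0 Y)) ∧ (∀ B, top 0 B.reverse = top 0 B) ∧
  (∀ e h B, top 0 (up e h B) = if h < top 0 B ∧ (top 0 B - 1) % 2 = e then top 0 B + 1
    else top 0 B)

/-- append -/
def T_APP : Prop := ∀ (R : ℕ) (W U : ℝ) (e hl hr : ℕ) (X Y : List ℕ),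
  phC R W U e hl (X ++ Y) hr =
    phC R W U e hl X (max (top 0 Y) hr) * phC R W U e (max hl (top 0 X)) Y hr

/-- mirror -/
def T_MIR : Prop := ∀ (R : ℕ) (W U : ℝ) (e hl hr : ℕ) (X : List ℕ), e < 2 →
  phC R W U (1 - e) hr X.reverse hl = phC R W U e hl X hr

/-- a block seen from outside -/
def T_O : Prop := ∀ (R : ℕ) (W U : ℝ) (e h : ℕ) (B : List ℕ), 1 ≤ W → 1 ≤ U → e < 2 →
  phC R W U e 0 (up e h B) 0 * U ^ (vis e h B).card ≤ phC R W U e 0 B 0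

/-- the part of the own block to the right of the new element, general case -/
def T_YS : Prop := ∀ (R : ℕ) (W U : ℝ) (e tX hl : ℕ) (Y : List ℕ), 1 ≤ W → 1 ≤ U → e < 2 →
  max tX 1 ≤ hl →
  phC R W U e hl (up e 0 Y) 0 * U ^ (vis e tX Y).card ≤ W ^ 2 * U * phC R W U e tX Y 0

/-- regular case, right part -/
def T_YSR : Prop := ∀ (R : ℕ) (W U : ℝ) (e tX hl : ℕ) (Y : List ℕ), 1 ≤ R → 1 ≤ W → 1 ≤ U →
  e < 2 → tX ≤ hl → 1 ≤ top 0 Y → (top 0 Y - 1) % 2 = e → top 0 Y + 2 ≤ tX →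
  phC R W U e hl (up e 0 Y) 0 *
    Real.exp (2 * ((Y.takeWhile (fun r => decide (r < top 0 Y - 1))).length + 1 : ℝ) / R)
    ≤ U * phC R W U e tX Y 0

/-- regular case, left part (mirrored) -/
def T_XSR : Prop := ∀ (R : ℕ) (W U : ℝ) (e t hl : ℕ) (Z : List ℕ), 1 ≤ R → 1 ≤ W → 1 ≤ U →
  e < 2 → 1 ≤ t → (t - 1) % 2 = 1 - e → t + 2 ≤ top 0 Z → t + 1 ≤ hl →
  phC R W U e hl (up e 0 Z) 0 *
    Real.exp (2 * ((Z.takeWhile (fun r => decide (r < t - 1))).length : ℝ) / R) *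
    W ^ ((Z.takeWhile (fun r => decide (r ≤ t - 1))).count (t - 1))
    ≤ U * phC R W U e t Z 0

/-- own block, general case -/
def T_MG : Prop := ∀ (R : ℕ) (W U : ℝ) (e : ℕ) (X Y : List ℕ), 1 ≤ R → 1 ≤ W → 1 ≤ U → e < 2 →
  phC R W U e 0 (ins e X Y) 0 * U ^ (vis (1 - e) (top 0 Y) X.reverse).card
    ≤ KK R W U * phC R W U e 0 (X ++ Y) 0

/-- own block, regular case -/
def T_MR : Prop := ∀ (R : ℕ) (W U : ℝ) (e c : ℕ) (X Y : List ℕ), 1 ≤ R → 1 ≤ W → 1 ≤ U → e < 2 →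
  top 0 Y = c + 1 → c % 2 = e → c + 3 ≤ top 0 X →
  phC R W U e 0 (ins e X Y) 0 * Real.exp (2 * (zM c X Y : ℝ) / R) * W ^ zK c X
    ≤ U ^ 2 * Real.exp (((R : ℝ) - 1 - c) / R) * phC R W U e 0 (X ++ Y) 0

/-- scan of blocks -/
def T_SC : Prop := ∀ (R : ℕ) (W U : ℝ) (e h : ℕ) (st : List (List ℕ)), 1 ≤ W → 1 ≤ U → e < 2 →
  PA R W U e (upR e h st) * U ^ (pops e h st).card ≤ PA R W U e st ∧
  PA R W U e (upL (1 - e) h st) * U ^ (pops (1 - e) h (mir st)).card ≤ PA R W U e st ∧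
  tsum st ≤ tsum (upR e h st) ∧ tsum st ≤ tsum (upL (1 - e) h st)

/-- placement, general case -/
def T_GG : Prop := ∀ (R : ℕ) (W U : ℝ) (e : ℕ) (Ls : List (List ℕ)) (X Y : List ℕ)
  (Rs : List (List ℕ)), 1 ≤ R → 1 ≤ W → 1 ≤ U → e < 2 →
  PA R W U e (place e Ls X Y Rs) ≤ KK R W U * PA R W U e (Ls ++ (X ++ Y) :: Rs) ∧
  tsum (Ls ++ (X ++ Y) :: Rs) ≤ tsum (place e Ls X Y Rs)

/-- placement, regular case -/
def T_GR : Prop := ∀ (R : ℕ) (W U : ℝ) (e c : ℕ) (Ls : List (List ℕ)) (X Y : List ℕ)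
  (Rs : List (List ℕ)), 1 ≤ R → 1 ≤ W → 1 ≤ U → e < 2 →
  top 0 Y = c + 1 → c % 2 = e → c + 3 ≤ top 0 X →
  PA R W U e (place e Ls X Y Rs) * Real.exp (2 * (zM c X Y : ℝ) / R) * W ^ zK c X
    ≤ U ^ 2 * Real.exp (((R : ℝ) - 1 - c) / R) * PA R W U e (Ls ++ (X ++ Y) :: Rs)

/-- parity condition on the blocks `A` to the left of the home mark -/
def QQ (e : ℕ) (A : List (List ℕ)) : Prop := ∀ A1 A2, A = A1 ++ A2 → A2 ≠ [] →
  tops A2 % 2 = 1 - e

/-- visible levels with height `h` -/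
def T_PO : Prop := ∀ (e h : ℕ) (st : List (List ℕ)),
  pops e h st = (pops e 0 st).filter (fun c => h ≤ c) ∧ (∀ c ∈ pops e h st, c % 2 = e) ∧
  (∀ c ∈ pops e 0 st, c + 1 < tops st)

/-- number of pops of an irregular home placement -/
def T_IP : Prop := ∀ (e : ℕ) (Ls : List (List ℕ)) (X Y : List ℕ) (Rs C : List (List ℕ)), e < 2 →
  QQ e (Ls ++ (X ++ Y) :: Rs) → home X Y Rs → 1 ≤ top 0 Y → top 0 Y % 2 = e →
  top 0 Y - 1 ∈ pops (1 - e) 0 (mir (Ls ++ (X ++ Y) :: Rs)) ∧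
  ((pops (1 - e) 0 (mir (Ls ++ (X ++ Y) :: Rs)) ∪ pops e 0 C).filter
      (fun c => top 0 Y - 1 < c)).card ≤
    (pops (1 - e) (top 0 X) (mir Ls)).card + (vis (1 - e) (top 0 Y) X.reverse).card +
      (pops e (top 0 Y) (Rs ++ C)).card

/-- placement, irregular case -/
def T_GI : Prop := ∀ (R : ℕ) (W U : ℝ) (e : ℕ) (Ls : List (List ℕ)) (X Y : List ℕ)
  (Rs C : List (List ℕ)), 1 ≤ R → 1 ≤ W → 1 ≤ U → e < 2 →
  QQ e (Ls ++ (X ++ Y) :: Rs) → home X Y Rs → 1 ≤ top 0 Y → top 0 Y % 2 = e →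
  PA R W U e (place e Ls X Y (Rs ++ C)) *
    U ^ ((pops (1 - e) 0 (mir (Ls ++ (X ++ Y) :: Rs)) ∪ pops e 0 C).filter
      (fun c => top 0 Y - 1 < c)).card
    ≤ KK R W U * PA R W U e (Ls ++ (X ++ Y) :: (Rs ++ C))

/-- a placement which is not a home placement raises a block -/
def T_RAI : Prop := ∀ (e : ℕ) (Ls : List (List ℕ)) (X Y : List ℕ) (Rs C : List (List ℕ)), e < 2 →
  QQ e (Ls ++ (X ++ Y) :: Rs) → ¬ home X Y Rs →
  tsum (Ls ++ (X ++ Y) :: (Rs ++ C)) + 1 ≤ tsum (place e Ls X Y (Rs ++ C))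

/-- a regular placement at level `c ≥ R` creates a rank `> R` -/
def T_CAP : Prop := ∀ (R e c : ℕ) (Ls : List (List ℕ)) (X Y : List ℕ) (Rs : List (List ℕ)), e < 2 →
  top 0 Y = c + 1 → c % 2 = e → R ≤ c → ¬ okR R (place e Ls X Y Rs)

/-- the sum over one level of one block -/
def T_ZS : Prop := ∀ (R c : ℕ) (W : ℝ) (B : List ℕ), 1 ≤ R → 1 < W →
  (∑ p ∈ range (B.length + 1), if top 0 (B.drop p) = c + 1 then
    1 / (Real.exp (2 * (zM c (B.take p) (B.drop p) : ℝ) / R) * W ^ zK c (B.take p)) else 0)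
    ≤ R / (2 * Real.exp 1) * (W / (W - 1))

/-- levels of the home placements: regular -/
def T_LR : Prop := ∀ (R e : ℕ) (W : ℝ) (A : List (List ℕ)) (s : ℕ → ℝ), 1 ≤ R → 1 < W → e < 2 →
  (∀ c, 0 ≤ s c) →
  ((plc [] A).map fun q => if home q.2.1 q.2.2.1 q.2.2.2 ∧ 1 ≤ top 0 q.2.2.1 ∧
      top 0 q.2.2.1 % 2 = 1 - e ∧ top 0 q.2.2.1 ≤ R then
      s (top 0 q.2.2.1 - 1) / (Real.exp (2 * (zM (top 0 q.2.2.1 - 1) q.2.1 q.2.2.1 : ℝ) / R) *
        W ^ zK (top 0 q.2.2.1 - 1) q.2.1) else 0).sum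
    ≤ (∑ c ∈ (range R).filter (fun c => c % 2 = e), s c) * (R / (2 * Real.exp 1) * (W / (W - 1)))

/-- levels of the home placements: irregular -/
def T_LI : Prop := ∀ (e m0 : ℕ) (A : List (List ℕ)) (s : ℕ → ℝ), e < 2 → QQ e A → okM m0 A →
  (∀ c, 0 ≤ s c) →
  ((plc [] A).map fun q => if home q.2.1 q.2.2.1 q.2.2.2 ∧ 1 ≤ top 0 q.2.2.1 ∧
      top 0 q.2.2.1 % 2 = e then s (top 0 q.2.2.1 - 1) else 0).sum
    ≤ m0 * ∑ c ∈ pops (1 - e) 0 (mir A), s c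

/-- levels of the home placements: height 0 -/
def T_LN : Prop := ∀ (A : List (List ℕ)),
  ((plc [] A).map fun q => if home q.2.1 q.2.2.1 q.2.2.2 ∧ top 0 q.2.2.1 = 0 then
    (1 : ℝ) else 0).sum ≤ 1

/-- the sum over the placements to the left of the home mark -/
def T_SA : Prop := ∀ (R m0 e : ℕ) (W U D : ℝ) (A C : List (List ℕ)), 1 ≤ R → 1 < W → 1 < U →
  1 ≤ D → e < 2 → QQ e A → okM m0 A → (open Classical in
  ((plc [] A).map fun q => if okR R (plq e (q.1, q.2.1, q.2.2.1, q.2.2.2 ++ C)) then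
      PHI R W U D e (plq e (q.1, q.2.1, q.2.2.1, q.2.2.2 ++ C)) else 0).sum)
    ≤ PHI R W U D e (A ++ C) *
      (U ^ 2 * (R / (2 * Real.exp 1) * (W / (W - 1))) *
          (∑ c ∈ (range R).filter (fun c => c % 2 = e), Real.exp (((R : ℝ) - 1 - c) / R)) +
        KK R W U * m0 * (∑ c ∈ pops (1 - e) 0 (mir A),
          1 / U ^ ((pops (1 - e) 0 (mir A) ∪ pops e 0 C).filter (fun c' => c < c')).card) +
        KK R W U + KK R W U * (plc [] A).length / D)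

/-- the home mark -/
def T_HM : Prop := ∀ st : List (List ℕ), ∃ A C, st = A ++ C ∧ QQ 1 A ∧ QQ 0 (mir C)

/-- mirror image of the placements -/
def T_PM : Prop := (∀ (e : ℕ) (Ls : List (List ℕ)) (X Y : List ℕ) (Rs : List (List ℕ)), e < 2 →
    mir (place e Ls X Y Rs) = place (1 - e) (mir Rs) Y.reverse X.reverse (mir Ls)) ∧
  (∀ (R : ℕ) (W U D : ℝ) (e : ℕ) (st : List (List ℕ)), e < 2 →
    PHI R W U D (1 - e) (mir st) = PHI R W U D e st) ∧
  (∀ (st : List (List ℕ)), ((plc [] st).map fun q =>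
    ((mir q.2.2.2, q.2.2.1.reverse, q.2.1.reverse, mir q.1) : Pl)).Perm (plc [] (mir st)))

/-- splitting the list of the placements -/
def T_PS : Prop := ∀ (A C : List (List ℕ)), plc [] (A ++ C) =
  ((plc [] A).map fun q => ((q.1, q.2.1, q.2.2.1, q.2.2.2 ++ C) : Pl)) ++
  ((plc [] C).map fun q => ((A ++ q.1, q.2.1, q.2.2.1, q.2.2.2) : Pl))

/-- geometric sums -/
def T_GEO : Prop := (∀ (U : ℝ) (I : Finset ℕ), 1 < U →
    (∑ c ∈ I, 1 / U ^ (I.filter (fun c' => c < c')).card) ≤ U / (U - 1)) ∧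
  (∀ R : ℕ, 1 ≤ R → (∑ c ∈ range R, Real.exp (((R : ℝ) - 1 - c) / R)) ≤
    R * (Real.exp 1 - 1))

/-- number of placements -/
def T_PN : Prop := ∀ (m0 : ℕ) (st : List (List ℕ)), (plc [] st).length =
  st.flatten.length + st.length

/-- THE POTENTIAL INEQUALITY -/
def T_POT : Prop := ∀ (R m0 m : ℕ) (W U D : ℝ), 1 ≤ R → 1 < W → 1 < U →
  ((m0 + 1) * m : ℝ) ≤ D → 1 ≤ D → POT R m0 m W U D (lam R m0 W U)

/-- upper bound for `T` -/
def T_UP : Prop := ∀ (R n m m0 : ℕ) (W U : ℝ), 1 ≤ R → 1 ≤ m0 → 1 ≤ m → n ≤ m * m0 → 1 < W →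
  1 < U → (cnt T n R : ℝ) ≤ lam R m0 W U ^ n * ((m0 + 1) * m : ℝ) ^ ((R + 1) * m)

/-! ### S. The lower bound for S -/

/-- one step of `S` -/
def T_SST : Prop := ∀ (bs : List (List ℕ × ℕ)) (D : List ℕ), (∀ b ∈ bs, ∀ x ∈ b.1, x < b.2) →
  bs.Pairwise (fun b b' => b'.2 < b.2) → D.Pairwise (· < ·) →
  ((bs.map fun b => b.1 ++ [b.2]).flatten ++ D).Nodup →
  ∃ D' : List ℕ, D'.Pairwise (· < ·) ∧ D'.Perm (D ++ bs.map Prod.snd) ∧
    S ((bs.map fun b => b.1 ++ [b.2]).flatten ++ D) = (bs.map fun b => S b.1).flatten ++ D'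

/-- sorting -/
def T_SRT : Prop := ∀ (R : ℕ) (C : List (List ℕ)), C.flatten.Nodup → (∀ B ∈ C, B.length = R) →
  (∀ B ∈ C, ∀ x ∈ B, ∀ y ∈ B.getLast?, x ≤ y) → C.Pairwise dom →
  (S^[R] C.flatten).Pairwise (· < ·)

/-- the invariants of the rows -/
def T_RI : Prop := ∀ (k : ℕ) (l : List ℕ), lat l.reverse → l.count 0 ≤ k →
  ∀ V ∈ Rch k l, RInv k l V

/-- the number of lists of rows -/
def T_RC : Prop := ∀ (k : ℕ) (l : List ℕ), lat l.reverse → l.count 0 ≤ k →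
  (Rch k l).card = (l.map fun c => max c 1).prod

/-- the word of columns is determined by the rows -/
def T_RD : Prop := ∀ (k : ℕ) (l l' : List ℕ), lat l.reverse → l.count 0 ≤ k → lat l'.reverse →
  l'.count 0 ≤ k → l.length = l'.length → l ≠ l' → Disjoint (Rch k l) (Rch k l')

/-- lower bound by lattice words -/
def T_BLD : Prop := ∀ (R k : ℕ) (F : Finset (List ℕ)), 1 ≤ R →
  (∀ l ∈ F, lat l ∧ (∀ c ∈ l, c < R) ∧ ∀ c < R, l.count c = k) →
  F.card * (R - 1).factorial ^ k ≤ cnt S (R * k) R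

/-- many words with the same content -/
def T_WC : Prop := ∀ R L : ℕ, 1 ≤ R → ∃ F : Finset (List ℕ),
  (∀ w ∈ F, w.length = L ∧ ∀ c ∈ w, c < R) ∧ (∀ w ∈ F, ∀ w' ∈ F, ∀ c, w.count c = w'.count c) ∧
  R ^ L ≤ F.card * (L + 1) ^ R

/-- many lattice words -/
def T_LW : Prop := ∀ (R L N : ℕ) (F : Finset (List ℕ)), 1 ≤ R →
  (∀ w ∈ F, w.length = L ∧ ∀ c ∈ w, c < R) → (∀ w ∈ F, ∀ w' ∈ F, ∀ c, w.count c = w'.count c) →
  ∃ G : Finset (List ℕ), (∀ l ∈ G, lat l ∧ (∀ c ∈ l, c < R) ∧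
    ∀ c < R, l.count c = L * (N + R - 1)) ∧ F.card ^ (N * R) ≤ G.card

/-- lower bound for `S` -/
def T_DN : Prop := ∀ (R L N : ℕ), 1 ≤ R →
  (R ^ L) ^ (N * R) * (R - 1).factorial ^ (L * (N + R - 1)) ≤
    cnt S (R * (L * (N + R - 1))) R * ((L + 1) ^ R) ^ (N * R)

/-- asymptotics -/
def T_FIN : Prop := ∃ R0 : ℕ, ∀ R m0 k n m : ℕ, R0 ≤ R → m0 = R * Nat.sqrt R →
  k = R ^ 2 * (R ^ 2 + R - 1) → n = R * k → m = n / m0 + 1 →
  lam R m0 100 (101 / 100) ^ n * ((m0 + 1) * m : ℝ) ^ ((R + 1) * m) *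
      ((11 / 10 : ℝ) ^ n * (((R : ℝ) ^ 2 + 1) ^ R) ^ (R ^ 2 * R)) <
    ((R : ℝ) ^ (R ^ 2)) ^ (R ^ 2 * R) * ((R - 1).factorial : ℝ) ^ k

/-- THE THEOREM -/
def T_END : Prop := ∃ t0 : ℕ, ∀ t ≥ t0, ∃ n : ℕ, t + 4 ≤ n ∧
  (11 / 10 : ℝ) ^ n * cnt T n t < cnt S n t

end Pool.Agent.H47.ST
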